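import Pool.Agent.H62.FK.Fin

/-!
# An explicit bound for the Folkman number `F_e(3,3; H₀)` (MP_eb1b1c_co)

There is a graph `G` with `2 ^ 2100` vertices which does not contain `H₀` (`K₅` minus the edges `01`, `23`, `34`, the complement of `P₂ ∪ P₃`; so it does not contain `K₁ + C₄` either)
such that every colouring of the edges of `G` with two colours has a monochromatic triangle.
-/

set_option autoImplicit false

namespace Pool.Agent.Results.MP_eb1b1c_co.ExplicitBound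

open Pool.Agent.H62.FK

/-- a copy of `K₅` minus the edges `01`, `23`, `34` (a subgraph, not necessarily induced) -/
def ContainsH0 {n : ℕ} (G : SimpleGraph (Fin n)) : Prop :=
  ∃ f : Fin 5 → Fin n, Function.Injective f ∧ ∀ i j : Fin 5, i ≠ j →
    ¬ ((i = 0 ∧ j = 1) ∨ (i = 1 ∧ j = 0) ∨ (i = 2 ∧ j = 3) ∨ (i = 3 ∧ j = 2) ∨
      (i = 3 ∧ j = 4) ∨ (i = 4 ∧ j = 3)) → G.Adj (f i) (f j)

/-- every colouring of the edges with two colours has a monochromatic triangle -/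
def Arrows {n : ℕ} (G : SimpleGraph (Fin n)) : Prop :=
  ∀ c : Fin n → Fin n → Bool, (∀ x y : Fin n, G.Adj x y → c x y = c y x) →
    ∃ x y z : Fin n, G.Adj x y ∧ G.Adj y z ∧ G.Adj x z ∧ c x y = c y z ∧ c y z = c x z

theorem result : ∃ G : SimpleGraph (Fin (2 ^ 2100)), ¬ ContainsH0 G ∧ Arrows G := by
  obtain ⟨A, hA, hm⟩ := fk
  have hcard : Fintype.card (Fin (299 + 1) → Fin 128) = 2 ^ 2100 := by
    rw [Fintype.card_fun, Fintype.card_fin, Fintype.card_fin]
    have h : (128 : ℕ) = 2 ^ 7 := by norm_num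
    rw [h, ← pow_mul]
  obtain ⟨e⟩ : Nonempty ((Fin (299 + 1) → Fin 128) ≃ Fin (2 ^ 2100)) :=
    Fintype.card_eq.1 (hcard.trans (Fintype.card_fin _).symm)
  refine ⟨A.comap e.symm, ?_, ?_⟩
  · rintro ⟨f, hf, h⟩
    refine hA ⟨fun i => e.symm (f i), fun i j hij => hf (e.symm.injective hij), fun w hw => ?_⟩
    have h1 : ∀ w ∈ HE, w.1 ≠ w.2 ∧ ¬ ((w.1 = 0 ∧ w.2 = 1) ∨ (w.1 = 1 ∧ w.2 = 0) ∨
        (w.1 = 2 ∧ w.2 = 3) ∨ (w.1 = 3 ∧ w.2 = 2) ∨ (w.1 = 3 ∧ w.2 = 4) ∨
        (w.1 = 4 ∧ w.2 = 3)) := by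
      unfold HE
      decide
    obtain ⟨h2, h3⟩ := h1 w hw
    exact h w.1 w.2 h2 h3
  · intro c hc
    obtain ⟨x, y, z, h1, h2, h3, h4, h5⟩ := hm (fun x y => c (e x) (e y)) fun x y hxy =>
      hc (e x) (e y) (by
        show A.Adj (e.symm (e x)) (e.symm (e y))
        rw [e.symm_apply_apply, e.symm_apply_apply]
        exact hxy)
    refine ⟨e x, e y, e z, ?_, ?_, ?_, h4, h5⟩
    · show A.Adj (e.symm (e x)) (e.symm (e y))
      rw [e.symm_apply_apply, e.symm_apply_apply]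
      exact h1
    · show A.Adj (e.symm (e y)) (e.symm (e z))
      rw [e.symm_apply_apply, e.symm_apply_apply]
      exact h2
    · show A.Adj (e.symm (e x)) (e.symm (e z))
      rw [e.symm_apply_apply, e.symm_apply_apply]
      exact h3

end Pool.Agent.Results.MP_eb1b1c_co.ExplicitBound
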